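import Pool.Agent.Q169.FT.Stm

/-!
# Project FT, job AMEN: groups with a cyclic subgroup of finite index
-/

set_option autoImplicit false

namespace Pool.Agent.Q146.FT

open Pool.Agent.H919R4.ZS (FinRes toRed eps_d eps)
open Pool.Agent.H919R4.AS
open Pool.Agent.H496R3.ZS (IsAmenable)
open scoped Pointwise symmDiff Matrix

noncomputable section

section folner

variable {H : Type} [Group H]

lemma bound (t : H) (R : Finset H) (hR : ∀ g : H, ∃ r ∈ R, ∃ a : ℤ, g = r * t ^ a) (s : H) :
    ∃ A : ℕ, ∀ r ∈ R, ∃ r' ∈ R, ∃ a : ℤ, |a| ≤ A ∧ s * r = r' * t ^ a := by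
  choose f hf g hg using hR
  refine ⟨R.sup (fun r => (g (s * r)).natAbs), fun r hr => ⟨f (s * r), hf _, g (s * r), ?_, hg _⟩⟩
  have h := Finset.le_sup (f := fun r => (g (s * r)).natAbs) hr
  rw [Int.abs_eq_natAbs]
  exact_mod_cast h

open Classical in
/-- the Foelner sets -/
def FF (t : H) (R : Finset H) (n : ℕ) : Finset H :=
  (R ×ˢ Finset.Ico (0 : ℤ) n).image (fun p => p.1 * t ^ p.2)

lemma diff_le (t : H) (R : Finset H) (s : H) (A : ℕ)
    (hA : ∀ r ∈ R, ∃ r' ∈ R, ∃ a : ℤ, |a| ≤ A ∧ s * r = r' * t ^ a) (n : ℕ) :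
    ((s • (FF t R n : Set H)) \ (FF t R n : Set H)).ncard ≤ R.card * (2 * A) := by
  classical
  set W : Finset H := (R ×ˢ (Finset.Ico (-(A : ℤ)) 0 ∪ Finset.Ico (n : ℤ) (n + A))).image
    (fun p => p.1 * t ^ p.2) with hW
  have hsub : ((s • (FF t R n : Set H)) \ (FF t R n : Set H)) ⊆ (W : Set H) := by
    rintro x ⟨hx1, hx2⟩
    rw [Set.mem_smul_set] at hx1
    obtain ⟨y, hy, rfl⟩ := hx1
    rw [Finset.mem_coe, FF, Finset.mem_image] at hy
    obtain ⟨⟨r, i⟩, hri, rfl⟩ := hy
    rw [Finset.mem_product, Finset.mem_Ico] at hri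
    obtain ⟨hr, hi0, hin⟩ := hri
    simp only at hr hi0 hin
    obtain ⟨r', hr', a, ha, hsr⟩ := hA r hr
    have e1 : s • (r * t ^ i) = r' * t ^ (a + i) := by
      rw [smul_eq_mul, ← mul_assoc, hsr, mul_assoc, ← zpow_add]
    simp only at hx2 ⊢
    rw [e1] at hx2 ⊢
    rw [Finset.mem_coe, hW, Finset.mem_image]
    refine ⟨(r', a + i), ?_, rfl⟩
    rw [Finset.mem_product]
    refine ⟨hr', ?_⟩
    simp only
    have h3 : ¬ (0 ≤ a + i ∧ a + i < n) := by
      intro h
      apply hx2
      rw [Finset.mem_coe, FF, Finset.mem_image]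
      refine ⟨(r', a + i), ?_, rfl⟩
      rw [Finset.mem_product, Finset.mem_Ico]
      exact ⟨hr', h⟩
    rw [Finset.mem_union, Finset.mem_Ico, Finset.mem_Ico]
    rw [abs_le] at ha
    omega
  have h1 := Set.ncard_le_ncard hsub (Finset.finite_toSet W)
  rw [Set.ncard_coe_finset] at h1
  refine h1.trans ?_
  rw [hW]
  refine Finset.card_image_le.trans ?_
  rw [Finset.card_product]
  refine Nat.mul_le_mul_left _ ?_
  refine (Finset.card_union_le _ _).trans ?_
  rw [Int.card_Ico, Int.card_Ico]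
  omega

lemma amenable (t : H) (hfin : Finite (H ⧸ Subgroup.zpowers t)) : IsAmenable H := by
  classical
  by_cases ht : IsOfFinOrder t
  · -- finite group
    have h1 : Finite (Subgroup.zpowers t) := finite_zpowers.2 ht
    have h2 : Finite H := by
      have e := Subgroup.groupEquivQuotientProdSubgroup (s := Subgroup.zpowers t)
      exact Finite.of_equiv _ e.symm
    have := Fintype.ofFinite H
    intro S ε hε
    refine ⟨Finset.univ, Finset.univ_nonempty, fun s _ => ?_⟩
    rw [Finset.coe_univ, Set.smul_set_univ, symmDiff_self]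
    simp only [Set.bot_eq_empty, Set.ncard_empty, Nat.cast_zero]
    positivity
  · have hinj : Function.Injective (fun n : ℤ => t ^ n) := injective_zpow_iff_not_isOfFinOrder.2 ht
    have := Fintype.ofFinite (H ⧸ Subgroup.zpowers t)
    set R : Finset H := Finset.univ.image (fun q : H ⧸ Subgroup.zpowers t => q.out) with hRdef
    have hR : ∀ g : H, ∃ r ∈ R, ∃ a : ℤ, g = r * t ^ a := by
      intro g
      refine ⟨((g : H ⧸ Subgroup.zpowers t)).out, Finset.mem_image.2 ⟨_, Finset.mem_univ _, rfl⟩, ?_⟩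
      have h1 : ((((g : H ⧸ Subgroup.zpowers t)).out : H) : H ⧸ Subgroup.zpowers t) = g :=
        QuotientGroup.out_eq' _
      rw [QuotientGroup.eq] at h1
      obtain ⟨a, ha⟩ := Subgroup.mem_zpowers_iff.1 h1
      refine ⟨a, ?_⟩
      rw [ha, mul_inv_cancel_left]
    have hRne : R.Nonempty := by
      obtain ⟨r, hr, -⟩ := hR 1
      exact ⟨r, hr⟩
    choose A hA using bound t R hR
    intro S ε hε
    set B : ℕ := S.sup (fun s => R.card * (2 * A s) + R.card * (2 * A s⁻¹)) with hB
    obtain ⟨n, hn⟩ := exists_nat_gt ((B : ℝ) / ε)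
    have hn0 : 0 < n := by
      have : (0 : ℝ) ≤ (B : ℝ) / ε := by positivity
      have h2 : (0 : ℝ) < n := lt_of_le_of_lt this hn
      exact_mod_cast h2
    have hcard : n ≤ (FF t R n).card := by
      obtain ⟨r, hr⟩ := hRne
      have h1 : (Finset.Ico (0 : ℤ) n).image (fun i => r * t ^ i) ⊆ FF t R n := by
        intro x hx
        rw [Finset.mem_image] at hx
        obtain ⟨i, hi, rfl⟩ := hx
        rw [FF, Finset.mem_image]
        exact ⟨(r, i), Finset.mem_product.2 ⟨hr, hi⟩, rfl⟩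
      have h2 := Finset.card_le_card h1
      have h3 : ((Finset.Ico (0 : ℤ) n).image (fun i => r * t ^ i)).card = n := by
        rw [Finset.card_image_of_injective, Int.card_Ico]
        · omega
        · exact (mul_right_injective r).comp hinj
      omega
    refine ⟨FF t R n, Finset.card_pos.1 (by omega), fun s hs => ?_⟩
    have h1 := diff_le t R s (A s) (hA s) n
    have h2 : ((FF t R n : Set H) \ (s • (FF t R n : Set H))).ncard ≤ R.card * (2 * A s⁻¹) := by
      have h3 := diff_le t R s⁻¹ (A s⁻¹) (hA s⁻¹) n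
      have e1 : ((FF t R n : Set H) \ (s • (FF t R n : Set H))) =
          s • ((s⁻¹ • (FF t R n : Set H)) \ (FF t R n : Set H)) := by
        rw [Set.smul_set_sdiff, smul_inv_smul]
      rw [e1, Set.ncard_smul_set]
      exact h3
    have h4 : ((s • (FF t R n : Set H)) ∆ (FF t R n : Set H)).ncard ≤ B := by
      rw [symmDiff_def]
      refine (Set.ncard_union_le _ _).trans ?_
      refine le_trans (add_le_add h1 h2) ?_
      exact Finset.le_sup (f := fun s => R.card * (2 * A s) + R.card * (2 * A s⁻¹)) hs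
    have h5 : (B : ℝ) ≤ ε * n := by
      rw [div_lt_iff₀ hε] at hn
      linarith
    calc (((s • (FF t R n : Set H)) ∆ (FF t R n : Set H)).ncard : ℝ) ≤ B := by exact_mod_cast h4
      _ ≤ ε * n := h5
      _ ≤ ε * (FF t R n).card := by
        refine mul_le_mul_of_nonneg_left ?_ hε.le
        exact_mod_cast hcard

end folner

section zero

variable {G : Type} [Group G]

lemma finite_top (t : G) (h : Finite (G ⧸ Subgroup.zpowers t)) :
    Finite ((⊤ : Subgroup G) ⧸ Subgroup.zpowers (⟨t, Subgroup.mem_top t⟩ : (⊤ : Subgroup G))) := by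
  have e1 : Subgroup.zpowers (⟨t, Subgroup.mem_top t⟩ : (⊤ : Subgroup G)) =
      (Subgroup.zpowers t).comap (Subgroup.topEquiv : (⊤ : Subgroup G) ≃* G).toMonoidHom := by
    ext x
    rw [Subgroup.mem_comap, Subgroup.mem_zpowers_iff, Subgroup.mem_zpowers_iff]
    refine exists_congr fun k => ?_
    rw [← Subtype.coe_inj]
    simp
  have h1 : (Subgroup.zpowers t).index ≠ 0 := Subgroup.index_ne_zero_of_finite
  have h2 : (Subgroup.zpowers (⟨t, Subgroup.mem_top t⟩ : (⊤ : Subgroup G))).index ≠ 0 := by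
    rw [e1, Subgroup.index_comap_of_surjective _ (Subgroup.topEquiv).surjective]
    exact h1
  have h3 : (Subgroup.zpowers (⟨t, Subgroup.mem_top t⟩ : (⊤ : Subgroup G))).FiniteIndex := ⟨h2⟩
  exact Subgroup.finite_quotient_of_finiteIndex

lemma ringZ_top (a : MonoidAlgebra ℤ G) (q : G ⧸ (⊤ : Subgroup G)) (c : ℤ) :
    ringZ G (G ⧸ (⊤ : Subgroup G)) a (Finsupp.single q c) =
      Finsupp.single q (Pool.Agent.H919R4.ZS.augm G a * c) := by
  refine MonoidAlgebra.induction_linear a ?_ ?_ ?_
  · simp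
  · intro x y hx hy
    rw [map_add, map_add, add_mul, Finsupp.single_add, ← hx, ← hy]
    rfl
  · intro g r
    rw [Pool.Agent.H919R4.ZS.augm_single]
    change (MonoidAlgebra.liftNC _ _ _ : AddMonoid.End ((G ⧸ (⊤ : Subgroup G)) →₀ ℤ)) _ = _
    rw [MonoidAlgebra.liftNC_single]
    have hq : g • q = q := by
      have : Subsingleton (G ⧸ (⊤ : Subgroup G)) := QuotientGroup.subsingleton_quotient_top
      exact Subsingleton.elim _ _
    change ((r : ℤ) : AddMonoid.End ((G ⧸ (⊤ : Subgroup G)) →₀ ℤ))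
      (Finsupp.mapDomain (fun z => g • z) (Finsupp.single q c)) = _
    rw [Finsupp.mapDomain_single, hq]
    simp

theorem amen : Pool.Agent.Q169.FT.S_AMEN := by
  intro G _ t hfin X
  by_contra hcon
  push Not at hcon
  have hs : ∀ i, Subsingleton (X.homology (toRed G) i) := fun i => hcon i
  have hC : IsAmenable (⊤ : Subgroup G) :=
    amenable (⟨t, Subgroup.mem_top t⟩ : (⊤ : Subgroup G)) (finite_top t hfin)
  have hV : ∀ m : Mult G (G ⧸ (⊤ : Subgroup G)), Van X m := fun m =>
    van_of_homology X hC m (hs 0) (hs 1) (hs 2)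
  set q : G ⧸ (⊤ : Subgroup G) := ((1 : G) : G ⧸ (⊤ : Subgroup G)) with hq
  have h0 := H0 X hV (fun j => Finsupp.single q (X.aug j)) (by
    funext k
    change ∑ j, ringZ G (G ⧸ (⊤ : Subgroup G)) (X.d 0 k j) (Finsupp.single q (X.aug j)) = 0
    simp only [ringZ_top]
    rw [← Finsupp.single_finsetSum]
    have h1 := eps_d X (Pi.single k 1)
    unfold eps at h1
    have h2 : ∀ j, (Pi.single k (1 : MonoidAlgebra ℤ G) ᵥ* X.d 0) j = X.d 0 k j := fun j => by
      rw [Matrix.single_one_vecMul]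
      rfl
    simp only [h2] at h1
    rw [h1, Finsupp.single_zero])
  obtain ⟨x, hx⟩ := X.surj
  have h3 : ∀ j, X.aug j = 0 := fun j => by
    have h4 := congrFun h0 j
    exact Finsupp.single_eq_zero.1 h4
  simp only [h3, mul_zero, Finset.sum_const_zero] at hx
  exact zero_ne_one hx

end zero

end

end Pool.Agent.Q146.FT
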